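import Pool.Agent.U358.CHG.Select

set_option autoImplicit false

open Filter

namespace Pool.Agent.U358.CHG

lemma exists_scale {a c : ℕ} (ha : 1 ≤ a) (hc : 1 ≤ c) (b1 n : ℕ) (hn : 5 * NN a c b1 ≤ n) :
    ∃ b, b1 ≤ b ∧ 5 * NN a c b ≤ n ∧ n < 5 * NN a c (b + 1) := by
  classical
  have hex : ∃ k, n < 5 * NN a c k := by
    refine ⟨n + 1, ?_⟩
    have h1 : n + 1 < 8 ^ (n + 1) := Nat.lt_pow_self (by norm_num)
    have h2 : 8 ^ (n + 1) ≤ NN a c (n + 1) := by
      unfold NN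
      apply Nat.pow_le_pow_right (by norm_num)
      have hD : 1 ≤ DD a c := by unfold DD; omega
      have : n + 1 ≤ (n + 1) ^ 2 := by nlinarith
      nlinarith
    omega
  have hk := Nat.find_spec hex
  have hkb : b1 < Nat.find hex := by
    by_contra hcon
    push Not at hcon
    have := NN_mono ha hc hcon
    omega
  have hkk : Nat.find hex - 1 + 1 = Nat.find hex := by omega
  refine ⟨Nat.find hex - 1, by omega, ?_, ?_⟩
  · have := Nat.find_min hex (m := Nat.find hex - 1) (by omega)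
    omega
  · rw [hkk]
    exact hk

lemma asymp {a c : ℕ} (ha : 1 ≤ a) (hc : 1 ≤ c) (A : Set ℤ)
    (hA : ∀ b, EE a c + 1 ≤ b → ∃ S : Finset ℤ, (S : Set ℤ) ⊆ A ∧
      (∀ n ∈ S, 1 ≤ n ∧ n < ((5 * NN a c b : ℕ) : ℤ)) ∧ mm a c b ≤ 2 * S.card) :
    ∀ ε : ℝ, 0 < ε → ∀ᶠ n : ℕ in atTop,
      (n : ℝ) ^ (((a : ℝ) * c) / ((DD a c : ℕ) : ℝ) - ε) ≤
        ((A ∩ Set.Icc (1 : ℤ) (n : ℤ)).ncard : ℝ) := by
  intro ε hε
  set α : ℝ := ((a : ℝ) * c) / ((DD a c : ℕ) : ℝ) with hα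
  have har : (1 : ℝ) ≤ a := by exact_mod_cast ha
  have hcr : (1 : ℝ) ≤ c := by exact_mod_cast hc
  have hD : (1 : ℝ) ≤ ((DD a c : ℕ) : ℝ) := by
    have : 1 ≤ DD a c := by unfold DD; omega
    exact_mod_cast this
  have hα0 : 0 < α := by positivity
  have hα1 : α ≤ 1 := by
    rw [hα, div_le_one (by linarith)]
    unfold DD
    push_cast
    nlinarith
  have hDα : ((DD a c : ℕ) : ℝ) * α = a * c := by
    rw [hα]; field_simp
  set ε' := min ε α with hε'
  have hε'0 : 0 < ε' := lt_min hε hα0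
  have hε'1 : ε' ≤ ε := min_le_left _ _
  have hε'2 : ε' ≤ α := min_le_right _ _
  set K : ℝ := 3 * a * c + EE a c + 2 with hK
  obtain ⟨b2, hb2⟩ := exists_nat_ge (K / ε')
  set b1 := max (EE a c + 1) b2 with hb1
  filter_upwards [eventually_ge_atTop (5 * NN a c b1)] with n hn
  obtain ⟨b, hb, hbn, hnb⟩ := exists_scale ha hc b1 n hn
  have hbE : EE a c + 1 ≤ b := le_trans (le_max_left _ _) hb
  have hbK : K / ε' ≤ b := by
    have : b2 ≤ b := le_trans (le_max_right _ _) hb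
    calc K / ε' ≤ b2 := hb2
      _ ≤ b := by exact_mod_cast this
  have hbK' : K ≤ ε' * b := by
    rw [div_le_iff₀ hε'0] at hbK
    linarith
  have hb1r : (1 : ℝ) ≤ b := by
    have : 1 ≤ b := by omega
    exact_mod_cast this
  have hNpos : 0 < NN a c b := by unfold NN; positivity
  have hn1 : 1 ≤ n := by omega
  have hn1r : (1 : ℝ) ≤ n := by exact_mod_cast hn1
  -- the lower bound of the count
  obtain ⟨S, hSA, hSb, hScard⟩ := hA b hbE
  have hcount : (mm a c b : ℝ) / 2 ≤ ((A ∩ Set.Icc (1 : ℤ) (n : ℤ)).ncard : ℝ) := by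
    have hsub : (S : Set ℤ) ⊆ A ∩ Set.Icc (1 : ℤ) (n : ℤ) := by
      intro x hx
      refine ⟨hSA hx, ?_⟩
      obtain ⟨h1, h2⟩ := hSb x hx
      refine ⟨h1, ?_⟩
      have : ((5 * NN a c b : ℕ) : ℤ) ≤ (n : ℤ) := by exact_mod_cast hbn
      linarith
    have hfin : (A ∩ Set.Icc (1 : ℤ) (n : ℤ)).Finite :=
      (Set.finite_Icc _ _).subset Set.inter_subset_right
    have h1 := Set.ncard_le_ncard hsub hfin
    rw [Set.ncard_coe_finset] at h1
    have h2 : mm a c b ≤ 2 * (A ∩ Set.Icc (1 : ℤ) (n : ℤ)).ncard := by omega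
    have h3 : (mm a c b : ℝ) ≤ 2 * ((A ∩ Set.Icc (1 : ℤ) (n : ℤ)).ncard : ℝ) := by exact_mod_cast h2
    linarith
  refine le_trans ?_ hcount
  have hstep1 : (n : ℝ) ^ (α - ε) ≤ (n : ℝ) ^ (α - ε') :=
    Real.rpow_le_rpow_of_exponent_le hn1r (by linarith)
  refine hstep1.trans ?_
  have hnle : (n : ℝ) ≤ (8 : ℝ) ^ (((DD a c : ℕ) : ℝ) * ((b : ℝ) + 1) ^ 2 + 1) := by
    have h1 : n ≤ 8 ^ (DD a c * (b + 1) ^ 2 + 1) := by
      rw [pow_succ]
      unfold NN at hnb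
      omega
    have h2 : (n : ℝ) ≤ (8 : ℝ) ^ (DD a c * (b + 1) ^ 2 + 1) := by exact_mod_cast h1
    refine h2.trans (le_of_eq ?_)
    rw [← Real.rpow_natCast]
    congr 1
    push_cast
    ring
  have hstep2 : (n : ℝ) ^ (α - ε') ≤ (8 : ℝ) ^ ((((DD a c : ℕ) : ℝ) * ((b : ℝ) + 1) ^ 2 + 1) * (α - ε')) := by
    rw [Real.rpow_mul (by norm_num)]
    exact Real.rpow_le_rpow (by linarith) hnle (by linarith)
  refine hstep2.trans ?_
  have hmm : (mm a c b : ℝ) / 2 ≥ (8 : ℝ) ^ ((a : ℝ) * c * b ^ 2 - EE a c * b - 1) := by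
    have hET : EE a c ≤ a * c * b := by
      calc EE a c ≤ 1 * b := by omega
        _ ≤ a * c * b := Nat.mul_le_mul_right _ (Nat.mul_pos ha hc)
    have h1 : (mm a c b : ℝ) = (8 : ℝ) ^ ((a : ℝ) * c * b ^ 2 - EE a c * b) := by
      unfold mm
      push_cast
      rw [← Real.rpow_natCast]
      congr 1
      rw [Nat.cast_mul, Nat.cast_sub hET]
      push_cast
      ring
    rw [h1, Real.rpow_sub (by norm_num) _ 1, Real.rpow_one]
    have : (0 : ℝ) < (8 : ℝ) ^ ((a : ℝ) * c * b ^ 2 - EE a c * b) := by positivity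
    linarith
  refine le_trans ?_ hmm
  apply Real.rpow_le_rpow_of_exponent_le (by norm_num)
  have e1 : (((DD a c : ℕ) : ℝ) * ((b : ℝ) + 1) ^ 2 + 1) * (α - ε') =
      a * c * ((b : ℝ) + 1) ^ 2 + α - ε' * (((DD a c : ℕ) : ℝ) * ((b : ℝ) + 1) ^ 2 + 1) := by
    have : (((DD a c : ℕ) : ℝ) * ((b : ℝ) + 1) ^ 2 + 1) * (α - ε') =
      (((DD a c : ℕ) : ℝ) * α) * ((b : ℝ) + 1) ^ 2 + α -
        ε' * (((DD a c : ℕ) : ℝ) * ((b : ℝ) + 1) ^ 2 + 1) := by ring
    rw [this, hDα]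
  rw [e1]
  clear_value α ε' K
  have hbr0 : (0 : ℝ) ≤ b := by linarith
  have e2 : ε' * (b : ℝ) ^ 2 ≤ ε' * (((DD a c : ℕ) : ℝ) * ((b : ℝ) + 1) ^ 2 + 1) := by
    apply mul_le_mul_of_nonneg_left _ hε'0.le
    have h1 : (b : ℝ) ^ 2 ≤ ((b : ℝ) + 1) ^ 2 := by
      apply pow_le_pow_left₀ hbr0
      linarith
    have h2 : ((b : ℝ) + 1) ^ 2 ≤ ((DD a c : ℕ) : ℝ) * ((b : ℝ) + 1) ^ 2 :=
      le_mul_of_one_le_left (by positivity) hD
    linarith
  have e3 : K * b ≤ ε' * (b : ℝ) ^ 2 := by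
    have h1 := mul_le_mul_of_nonneg_right hbK' hbr0
    linarith [h1, show ε' * (b : ℝ) * b = ε' * (b : ℝ) ^ 2 by ring]
  have hac0 : (0 : ℝ) ≤ (a : ℝ) * c := by positivity
  have hacb : (a : ℝ) * c ≤ a * c * b := le_mul_of_one_le_right hac0 hb1r
  have e4 : (2 * (a * c * b) + a * c + 1 + EE a c * b + 1 : ℝ) ≤ K * b := by
    have h1 : K * b = 3 * (a * c * b) + EE a c * b + 2 * b := by rw [hK]; ring
    rw [h1]
    linarith
  have e5 : (a : ℝ) * c * ((b : ℝ) + 1) ^ 2 = a * c * b ^ 2 + 2 * (a * c * b) + a * c := by ring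
  rw [e5]
  linarith

theorem main (a c : ℕ) (ha : 1 ≤ a) (hc : 1 ≤ c) :
    ∃ A : Set ℤ, A ⊆ {n : ℤ | 1 ≤ n} ∧ A.Infinite ∧
      (∀ X : Finset ℤ, X.card = a + 1 → ∀ k : Fin (c + 1) → ℤ, Function.Injective k →
        ¬ (∀ i : Fin (c + 1), ∀ x ∈ X, x + k i ∈ A)) ∧
      ∀ ε : ℝ, 0 < ε → ∀ᶠ n : ℕ in atTop,
      (n : ℝ) ^ (((a : ℝ) * c) / ((DD a c : ℕ) : ℝ) - ε) ≤
        ((A ∩ Set.Icc (1 : ℤ) (n : ℤ)).ncard : ℝ) := by
  classical
  obtain ⟨A0, hfree, hcfg, hpos, hcount⟩ := exists_nat_set a c ha hc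
  set A : Set ℤ := (fun n : ℕ => (n : ℤ)) '' A0 with hAdef
  have hmemA : ∀ z : ℤ, z ∈ A → 0 ≤ z ∧ z.toNat ∈ A0 := by
    rintro _ ⟨n, hn, rfl⟩
    exact ⟨by positivity, by simpa using hn⟩
  have hAsymp := asymp ha hc A (by
    intro b hb
    obtain ⟨S, h1, h2, h3⟩ := hcount b hb
    refine ⟨S.map ⟨fun n : ℕ => (n : ℤ), Nat.cast_injective⟩, ?_, ?_, ?_⟩
    · intro x hx
      simp only [Finset.coe_map, Function.Embedding.coeFn_mk, Set.mem_image, Finset.mem_coe] at hx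
      obtain ⟨n, hn, rfl⟩ := hx
      exact ⟨n, h1 hn, rfl⟩
    · intro x hx
      simp only [Finset.mem_map, Function.Embedding.coeFn_mk] at hx
      obtain ⟨n, hn, rfl⟩ := hx
      have h4 := hpos n (h1 hn)
      have h5 := h2 n hn
      exact ⟨by exact_mod_cast h4, by exact_mod_cast h5⟩
    · rwa [Finset.card_map])
  refine ⟨A, ?_, ?_, ?_, hAsymp⟩
  · rintro _ ⟨n, hn, rfl⟩
    have := hpos n hn
    show (1 : ℤ) ≤ (n : ℤ)
    exact_mod_cast this
  · -- infinite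
    intro hfin
    have hDpos : (0 : ℝ) < ((DD a c : ℕ) : ℝ) := by
      have : 0 < DD a c := by unfold DD; omega
      exact_mod_cast this
    have har : (1 : ℝ) ≤ a := by exact_mod_cast ha
    have hcr : (1 : ℝ) ≤ c := by exact_mod_cast hc
    set α : ℝ := ((a : ℝ) * c) / ((DD a c : ℕ) : ℝ) with hα
    have hα0 : 0 < α := by positivity
    have h1 := hAsymp (α / 2) (by positivity)
    have h2 : Tendsto (fun n : ℕ => (n : ℝ) ^ (α - α / 2)) atTop atTop := by
      have := tendsto_rpow_atTop (show 0 < α - α / 2 by linarith)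
      exact this.comp tendsto_natCast_atTop_atTop
    have h3 := h2.eventually_gt_atTop ((A.ncard : ℕ) : ℝ)
    obtain ⟨n, hn1, hn2⟩ := (h1.and h3).exists
    have h4 : (A ∩ Set.Icc (1 : ℤ) (n : ℤ)).ncard ≤ A.ncard :=
      Set.ncard_le_ncard Set.inter_subset_left hfin
    have h5 : ((A ∩ Set.Icc (1 : ℤ) (n : ℤ)).ncard : ℝ) ≤ (A.ncard : ℝ) := by exact_mod_cast h4
    linarith
  · intro X hX k hk hall
    -- sort
    let x : Fin (a + 1) → ℤ := X.orderEmbOfFin hX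
    have hxmono : StrictMono x := (X.orderEmbOfFin hX).strictMono
    have hxmem : ∀ i, x i ∈ X := fun i => Finset.orderEmbOfFin_mem X hX i
    have hKcard : (Finset.univ.image k).card = c + 1 := by
      rw [Finset.card_image_of_injective _ hk, Finset.card_univ, Fintype.card_fin]
    let κ : Fin (c + 1) → ℤ := (Finset.univ.image k).orderEmbOfFin hKcard
    have hκmono : StrictMono κ := ((Finset.univ.image k).orderEmbOfFin hKcard).strictMono
    have hκmem : ∀ j, ∃ j', k j' = κ j := by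
      intro j
      have h1 := Finset.orderEmbOfFin_mem (Finset.univ.image k) hKcard j
      rw [Finset.mem_image] at h1
      obtain ⟨j', _, hj'⟩ := h1
      exact ⟨j', hj'⟩
    have hmem : ∀ i j, x i + κ j ∈ A := by
      intro i j
      obtain ⟨j', hj'⟩ := hκmem j
      rw [← hj']
      exact hall j' (x i) (hxmem i)
    have hnn : ∀ i j, 0 ≤ x i + κ j := fun i j => (hmemA _ (hmem i j)).1
    have hm0 : ∀ i j, (x i + κ j).toNat ∈ A0 := fun i j => (hmemA _ (hmem i j)).2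
    let t : Cfg a c := ((x 0 + κ 0).toNat, fun i => (x i.succ + κ 0).toNat,
      fun j => (x 0 + κ j.succ).toNat)
    have hMt : ∀ ij, Mt t ij = (x ij.1 + κ ij.2).toNat := by
      rintro ⟨i, j⟩
      have e1 : (Fin.cons t.1 t.2.1 : Fin (a + 1) → ℕ) i = (x i + κ 0).toNat := by
        refine Fin.cases ?_ (fun i' => ?_) i
        · simp [t]
        · simp [t]
      have e2 : (Fin.cons t.1 t.2.2 : Fin (c + 1) → ℕ) j = (x 0 + κ j).toNat := by
        refine Fin.cases ?_ (fun i' => ?_) j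
        · simp [t]
        · simp [t]
      show (Fin.cons t.1 t.2.1 : Fin (a + 1) → ℕ) i + (Fin.cons t.1 t.2.2 : Fin (c + 1) → ℕ) j - t.1 = _
      rw [e1, e2]
      show (x i + κ 0).toNat + (x 0 + κ j).toNat - (x 0 + κ 0).toNat = (x i + κ j).toNat
      have h1 := hnn i 0
      have h2 := hnn 0 j
      have h3 := hnn 0 0
      have h4 := hnn i j
      omega
    apply hcfg t
    · intro i
      show (x 0 + κ 0).toNat < (x i.succ + κ 0).toNat
      have h1 := hxmono (Fin.succ_pos i)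
      have h3 := hnn 0 0
      have h4 := hnn i.succ 0
      omega
    · intro j
      show (x 0 + κ 0).toNat < (x 0 + κ j.succ).toNat
      have h1 := hκmono (Fin.succ_pos j)
      have h3 := hnn 0 0
      have h4 := hnn 0 j.succ
      omega
    · rintro ⟨i, j⟩ ⟨i', j'⟩ h
      rw [hMt, hMt] at h
      have h' : (x i + κ j).toNat = (x i' + κ j').toNat := h
      have h1 := hnn i j
      have h2 := hnn i' j'
      have heq : x i + κ j = x i' + κ j' := by omega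
      -- the AP: x i' + κ j, x i + κ j, x i + κ j'
      have h3 := hnn i' j
      have h4 := hnn i j'
      have hap := hfree (hm0 i' j) (hm0 i j) (hm0 i j') (by omega)
      have hx : x i' = x i := by omega
      have hk' : κ j' = κ j := by omega
      rw [hxmono.injective hx, hκmono.injective hk']
    · intro ij
      rw [hMt]
      exact hm0 _ _

end Pool.Agent.U358.CHG
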