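import Mathlib

set_option autoImplicit false

open Real

namespace Pool.Agent.U358.CHG

/-- `D = h g - 1` for `h = a+1`, `g = c+1`. -/
def DD (a c : ℕ) : ℕ := a * c + a + c

/-- length of the `b`-th block -/
def NN (a c b : ℕ) : ℕ := 8 ^ (DD a c * b ^ 2)

/-- cell size in the `b`-th block -/
def qq (a c b : ℕ) : ℕ := 8 ^ ((a + c) * (b ^ 2 + 11 * b))

/-- loss constant -/
def EE (a c : ℕ) : ℕ := 3 * DD a c + 11 * (a + c)

/-- number of cells in the `b`-th block -/
def mm (a c b : ℕ) : ℕ := 8 ^ (b * (a * c * b - EE a c))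

lemma mm_mul_qq {a c b : ℕ} (ha : 1 ≤ a) (hc : 1 ≤ c) (hb : EE a c ≤ b) :
    mm a c b * qq a c b * 8 ^ (3 * DD a c * b) = NN a c b := by
  unfold mm qq NN
  rw [← pow_add, ← pow_add]
  congr 1
  have h1 : EE a c ≤ a * c * b := by
    calc EE a c ≤ 1 * b := by simpa using hb
      _ ≤ a * c * b := Nat.mul_le_mul_right _ (Nat.mul_pos ha hc)
  obtain ⟨r, hr⟩ := Nat.exists_eq_add_of_le h1
  have h2 : a * c * b - EE a c = r := by omega
  rw [h2]
  have h3 : b * (a * c * b) = b * EE a c + b * r := by rw [hr]; ring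
  unfold EE DD at *
  nlinarith

lemma card_le_roth {a c b : ℕ} (ha : 1 ≤ a) (hc : 1 ≤ c) (hb : EE a c ≤ b) :
    mm a c b * qq a c b ≤ rothNumberNat (NN a c b) := by
  have hD : 3 ≤ DD a c := by
    unfold DD
    have := Nat.mul_le_mul ha hc
    omega
  have hNpos : (0 : ℝ) < (NN a c b : ℝ) := by
    unfold NN; positivity
  have hlog8 : (1 : ℝ) ≤ Real.log 8 := by
    rw [Real.le_log_iff_exp_le (by norm_num)]
    have := Real.exp_one_lt_d9
    linarith
  have hlogN : Real.log (NN a c b : ℝ) = (DD a c : ℝ) * (b : ℝ) ^ 2 * Real.log 8 := by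
    unfold NN
    push_cast
    rw [Real.log_pow]
    push_cast
    ring
  have hDr : (3 : ℝ) ≤ (DD a c : ℝ) := by exact_mod_cast hD
  have hsq : 4 * √(Real.log (NN a c b : ℝ)) ≤ 3 * (DD a c : ℝ) * (b : ℝ) * Real.log 8 := by
    have h1 : √(Real.log (NN a c b : ℝ)) ≤ (3 / 4) * (DD a c : ℝ) * (b : ℝ) * Real.log 8 := by
      rw [Real.sqrt_le_iff]
      constructor
      · positivity
      · rw [hlogN]
        have h2 : (1 : ℝ) ≤ (9 / 16) * (DD a c : ℝ) * Real.log 8 := by nlinarith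
        have h3 : (0 : ℝ) ≤ (DD a c : ℝ) * (b : ℝ) ^ 2 * Real.log 8 := by positivity
        nlinarith
    linarith
  have hroth := Behrend.roth_lower_bound (N := NN a c b)
  have hprod : ((mm a c b * qq a c b : ℕ) : ℝ) * 8 ^ (3 * DD a c * b) = (NN a c b : ℝ) := by
    exact_mod_cast mm_mul_qq ha hc hb
  have hexp : Real.exp (-(3 * (DD a c : ℝ) * (b : ℝ) * Real.log 8)) * 8 ^ (3 * DD a c * b) = 1 := by
    have h8 : (8 : ℝ) ^ (3 * DD a c * b) = Real.exp (3 * (DD a c : ℝ) * (b : ℝ) * Real.log 8) := by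
      rw [← Real.exp_log (show (0 : ℝ) < 8 by norm_num), ← Real.exp_nat_mul]
      rw [Real.log_exp]
      push_cast
      ring_nf
    rw [h8, ← Real.exp_add]
    simp
  have hge : ((mm a c b * qq a c b : ℕ) : ℝ) ≤ (NN a c b : ℝ) * Real.exp (-4 * √(Real.log (NN a c b : ℝ))) := by
    have h1 : Real.exp (-(3 * (DD a c : ℝ) * (b : ℝ) * Real.log 8)) ≤
        Real.exp (-4 * √(Real.log (NN a c b : ℝ))) := by
      apply Real.exp_le_exp.mpr
      linarith
    calc ((mm a c b * qq a c b : ℕ) : ℝ)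
        = ((mm a c b * qq a c b : ℕ) : ℝ) * (Real.exp (-(3 * (DD a c : ℝ) * (b : ℝ) * Real.log 8)) * 8 ^ (3 * DD a c * b)) := by
          rw [hexp, mul_one]
      _ = (((mm a c b * qq a c b : ℕ) : ℝ) * 8 ^ (3 * DD a c * b)) * Real.exp (-(3 * (DD a c : ℝ) * (b : ℝ) * Real.log 8)) := by ring
      _ = (NN a c b : ℝ) * Real.exp (-(3 * (DD a c : ℝ) * (b : ℝ) * Real.log 8)) := by rw [hprod]
      _ ≤ _ := mul_le_mul_of_nonneg_left h1 hNpos.le
  exact_mod_cast hge.trans hroth

lemma exists_base (a c : ℕ) (ha : 1 ≤ a) (hc : 1 ≤ c) :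
    ∃ f : (b : ℕ) → Fin (mm a c b) × Fin (qq a c b) → ℕ,
      ∀ b, EE a c ≤ b → Function.Injective (f b) ∧
        (∀ x, 4 * NN a c b ≤ f b x ∧ f b x < 5 * NN a c b) ∧
        ThreeAPFree (Set.range (f b)) := by
  have key : ∀ b, ∃ g : Fin (mm a c b) × Fin (qq a c b) → ℕ, EE a c ≤ b →
      Function.Injective g ∧ (∀ x, 4 * NN a c b ≤ g x ∧ g x < 5 * NN a c b) ∧
        ThreeAPFree (Set.range g) := by
    intro b
    by_cases hb : EE a c ≤ b
    · obtain ⟨t, ht, hcard, hfree⟩ := rothNumberNat_spec (NN a c b)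
      have hle : Fintype.card (Fin (mm a c b) × Fin (qq a c b)) ≤ Fintype.card t := by
        rw [Fintype.card_prod, Fintype.card_fin, Fintype.card_fin, Fintype.card_coe, hcard]
        exact card_le_roth ha hc hb
      obtain ⟨e⟩ := Function.Embedding.nonempty_of_card_le hle
      refine ⟨fun x => 4 * NN a c b + (e x : ℕ), fun _ => ⟨?_, ?_, ?_⟩⟩
      · intro x y hxy
        have : (e x : ℕ) = (e y : ℕ) := by
          have : 4 * NN a c b + (e x : ℕ) = 4 * NN a c b + (e y : ℕ) := hxy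
          omega
        exact e.injective (Subtype.ext this)
      · intro x
        have := Finset.mem_range.mp (ht (e x).2)
        constructor
        · show 4 * NN a c b ≤ 4 * NN a c b + (e x : ℕ)
          omega
        · show 4 * NN a c b + (e x : ℕ) < 5 * NN a c b
          omega
      · rintro _ ⟨x, rfl⟩ _ ⟨y, rfl⟩ _ ⟨z, rfl⟩ h
        have h' : (e x : ℕ) + (e z : ℕ) = (e y : ℕ) + (e y : ℕ) := by
          have : (4 * NN a c b + (e x : ℕ)) + (4 * NN a c b + (e z : ℕ)) =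
            (4 * NN a c b + (e y : ℕ)) + (4 * NN a c b + (e y : ℕ)) := h
          omega
        have := hfree (e x).2 (e y).2 (e z).2 h'
        show 4 * NN a c b + (e x : ℕ) = 4 * NN a c b + (e y : ℕ)
        omega
    · exact ⟨fun _ => 0, fun h => absurd h hb⟩
  choose f hf using key
  exact ⟨f, hf⟩

/-- the block index of a number -/
def blk (a c n : ℕ) : ℕ := Nat.sqrt (Nat.log 8 n / DD a c)

lemma blk_mono (a c : ℕ) {n n' : ℕ} (h : n ≤ n') : blk a c n ≤ blk a c n' :=
  Nat.sqrt_le_sqrt (Nat.div_le_div_right (Nat.log_mono_right h))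

lemma blk_eq {a c b n : ℕ} (ha : 1 ≤ a) (h1 : 4 * NN a c b ≤ n) (h2 : n < 5 * NN a c b) :
    blk a c n = b := by
  have hD : 0 < DD a c := by unfold DD; omega
  have hlog : Nat.log 8 n = DD a c * b ^ 2 := by
    apply Nat.log_eq_of_pow_le_of_lt_pow
    · unfold NN at h1
      omega
    · unfold NN at h2
      rw [pow_succ]
      omega
  unfold blk
  rw [hlog, Nat.mul_div_cancel_left _ hD, Nat.sqrt_eq']

lemma NN_lt {a c i j : ℕ} (ha : 1 ≤ a) (hc : 1 ≤ c) (hij : i < j) :
    8 * NN a c i ≤ NN a c j := by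
  unfold NN
  rw [← pow_succ']
  apply Nat.pow_le_pow_right (by norm_num)
  have hD : 1 ≤ DD a c := by unfold DD; omega
  have : i ^ 2 + 1 ≤ j ^ 2 := by nlinarith
  nlinarith

lemma NN_mono {a c i j : ℕ} (ha : 1 ≤ a) (hc : 1 ≤ c) (hij : i ≤ j) :
    NN a c i ≤ NN a c j := by
  rcases Nat.lt_or_eq_of_le hij with h | h
  · have := NN_lt ha hc h
    omega
  · rw [h]

/-- the union of the blocks is 3AP free -/
lemma base_free {a c : ℕ} (ha : 1 ≤ a) (hc : 1 ≤ c)
    (f : (b : ℕ) → Fin (mm a c b) × Fin (qq a c b) → ℕ)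
    (hf : ∀ b, EE a c ≤ b → Function.Injective (f b) ∧
        (∀ x, 4 * NN a c b ≤ f b x ∧ f b x < 5 * NN a c b) ∧
        ThreeAPFree (Set.range (f b))) :
    ThreeAPFree {n : ℕ | ∃ b, EE a c ≤ b ∧ ∃ x, f b x = n} := by
  have key : ∀ bx by' bz : ℕ, EE a c ≤ bx → EE a c ≤ by' → EE a c ≤ bz →
      ∀ x y z, f bx x + f bz z = f by' y + f by' y → f bx x < f by' y → False := by
    intro bx by' bz hbx hby hbz x y z h hlt
    obtain ⟨_, hx, _⟩ := hf bx hbx
    obtain ⟨_, hy, hfree⟩ := hf by' hby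
    obtain ⟨_, hz, _⟩ := hf bz hbz
    have hx := hx x
    have hy := hy y
    have hz := hz z
    have hbyz : by' = bz := by
      rcases lt_trichotomy by' bz with h1 | h1 | h1
      · have := NN_lt ha hc h1
        omega
      · exact h1
      · have := NN_lt ha hc h1
        omega
    subst hbyz
    have hbxy : bx = by' := by
      rcases lt_trichotomy bx by' with h1 | h1 | h1
      · have := NN_lt ha hc h1
        omega
      · exact h1
      · have := NN_lt ha hc h1
        omega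
    subst hbxy
    have := hfree ⟨x, rfl⟩ ⟨y, rfl⟩ ⟨z, rfl⟩ h
    omega
  rintro _ ⟨bx, hbx, x, rfl⟩ _ ⟨by', hby, y, rfl⟩ _ ⟨bz, hbz, z, rfl⟩ h
  rcases lt_trichotomy (f bx x) (f by' y) with h1 | h1 | h1
  · exact (key bx by' bz hbx hby hbz x y z h h1).elim
  · exact h1
  · exact (key bz by' bx hbz hby hbx z y x (by omega) (by omega)).elim

end Pool.Agent.U358.CHG
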