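import Pool.Agent.U358.CHG.Base

set_option autoImplicit false

open scoped ENNReal

namespace Pool.Agent.U358.CHG

/-- `∑_f ∏_i y (f i) = (∑ y)^k`. -/
lemma tsum_pi_prod (y : ℕ → ℝ≥0∞) (k : ℕ) :
    ∑' f : Fin k → ℕ, ∏ i, y (f i) = (∑' n, y n) ^ k := by
  induction k with
  | zero => simp
  | succ k ih =>
    rw [← (Fin.consEquiv (fun _ : Fin (k+1) => ℕ)).tsum_eq, ENNReal.tsum_prod']
    simp only [Fin.consEquiv_apply, Fin.prod_univ_succ, Fin.cons_zero, Fin.cons_succ]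
    simp_rw [ENNReal.tsum_mul_left, ih, ENNReal.tsum_mul_right]
    rw [pow_succ']

/-- configurations: the minimum, the first row, the first column -/
abbrev Cfg (a c : ℕ) : Type := ℕ × (Fin a → ℕ) × (Fin c → ℕ)

/-- all the points of a configuration -/
def Mt {a c : ℕ} (t : Cfg a c) (ij : Fin (a + 1) × Fin (c + 1)) : ℕ :=
  (Fin.cons t.1 t.2.1 : Fin (a + 1) → ℕ) ij.1 + (Fin.cons t.1 t.2.2 : Fin (c + 1) → ℕ) ij.2 - t.1

/-- the largest element of the first row and the first column -/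
def top {a c : ℕ} (t : Cfg a c) : ℕ := max (Finset.univ.sup t.2.1) (Finset.univ.sup t.2.2)

lemma tsum_cfg {a c : ℕ} (y : ℕ → ℝ≥0∞) :
    ∑' t : Cfg a c, y t.1 * (∏ i, y (t.2.1 i)) * (∏ j, y (t.2.2 j)) =
      (∑' n, y n) * (∑' n, y n) ^ a * (∑' n, y n) ^ c := by
  rw [ENNReal.tsum_prod']
  have : ∀ m : ℕ, ∑' (b : (Fin a → ℕ) × (Fin c → ℕ)), y m * (∏ i, y (b.1 i)) * (∏ j, y (b.2 j)) =
      y m * ((∑' n, y n) ^ a * (∑' n, y n) ^ c) := by
    intro m
    rw [ENNReal.tsum_prod']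
    simp_rw [ENNReal.tsum_mul_left, tsum_pi_prod, ENNReal.tsum_mul_right, ENNReal.tsum_mul_left,
      tsum_pi_prod, mul_assoc]
  simp_rw [this, ENNReal.tsum_mul_right]
  ring

/-- the matrix sum bound -/
lemma matrix_sum {a c : ℕ} (G : ℕ → ℕ) (hG : Monotone G) (t : Cfg a c)
    (h1 : ∀ i, t.1 < t.2.1 i) (h2 : ∀ j, t.1 < t.2.2 j) :
    (a + c) * G t.1 + DD a c * (∑ i, G (t.2.1 i)) + DD a c * (∑ j, G (t.2.2 j)) ≤
      ∑ ij : Fin (a + 1) × Fin (c + 1), (a + c) * G (Mt t ij) := by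
  rw [Fintype.sum_prod_type]
  rw [Fin.sum_univ_succ]
  rw [Fin.sum_univ_succ]
  have e00 : Mt t (0, 0) = t.1 := by simp [Mt]
  have e0s : ∀ j : Fin c, Mt t (0, j.succ) = t.2.2 j := by intro j; simp [Mt]
  have es0 : ∀ i : Fin a, Mt t (i.succ, 0) = t.2.1 i := by intro i; simp [Mt]
  have ess : ∀ (i : Fin a) (j : Fin c), t.2.1 i ≤ Mt t (i.succ, j.succ) ∧
      t.2.2 j ≤ Mt t (i.succ, j.succ) := by
    intro i j
    have := h1 i
    have := h2 j
    simp only [Mt, Fin.cons_succ]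
    omega
  have hrow : ∀ i : Fin a, (a + c) * G (t.2.1 i) + ∑ j : Fin c, (a * G (t.2.1 i) + c * G (t.2.2 j)) ≤
      ∑ j : Fin (c + 1), (a + c) * G (Mt t (i.succ, j)) := by
    intro i
    rw [Fin.sum_univ_succ, es0]
    apply Nat.add_le_add_left
    apply Finset.sum_le_sum
    intro j _
    obtain ⟨hU, hV⟩ := ess i j
    rw [add_mul]
    exact Nat.add_le_add (Nat.mul_le_mul_left _ (hG hU)) (Nat.mul_le_mul_left _ (hG hV))
  have hrows := Finset.sum_le_sum (fun i (_ : i ∈ (Finset.univ : Finset (Fin a))) => hrow i)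
  have hcomp : ∑ i : Fin a, ((a + c) * G (t.2.1 i) + ∑ j : Fin c, (a * G (t.2.1 i) + c * G (t.2.2 j))) =
      (a + c) * (∑ i, G (t.2.1 i)) + (a * c) * (∑ i, G (t.2.1 i)) + (a * c) * (∑ j, G (t.2.2 j)) := by
    simp_rw [Finset.sum_add_distrib, Finset.sum_const, Finset.card_univ, Fintype.card_fin,
      smul_eq_mul, ← Finset.mul_sum]
    ring
  rw [hcomp] at hrows
  simp_rw [e00, e0s, ← Finset.mul_sum]
  simp_rw [← Finset.mul_sum] at hrows
  have hexp : DD a c = (a + c) + a * c := by unfold DD; ring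
  have k1 : DD a c * (∑ i, G (t.2.1 i)) = (a + c) * (∑ i, G (t.2.1 i)) + a * c * (∑ i, G (t.2.1 i)) := by
    rw [hexp, add_mul]
  have k2 : DD a c * (∑ j, G (t.2.2 j)) = (a + c) * (∑ j, G (t.2.2 j)) + a * c * (∑ j, G (t.2.2 j)) := by
    rw [hexp, add_mul]
  rw [k1, k2]
  omega

/-- the exponents bound -/
lemma exponent_bound {a c : ℕ} (ha : 1 ≤ a) (hc : 1 ≤ c) (t : Cfg a c)
    (h1 : ∀ i, t.1 < t.2.1 i) (h2 : ∀ j, t.1 < t.2.2 j)
    (hT : EE a c < blk a c (top t)) :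
    (DD a c * (blk a c t.1) ^ 2 + blk a c t.1) +
      (∑ i, (DD a c * (blk a c (t.2.1 i)) ^ 2 + blk a c (t.2.1 i))) +
      (∑ j, (DD a c * (blk a c (t.2.2 j)) ^ 2 + blk a c (t.2.2 j))) + 1 ≤
    blk a c (top t) * (a * c * blk a c (top t) - EE a c) +
      ∑ ij : Fin (a + 1) × Fin (c + 1),
        (a + c) * ((blk a c (Mt t ij)) ^ 2 + 11 * blk a c (Mt t ij)) := by
  set B := blk a c with hB
  have hBm : ∀ {n n' : ℕ}, n ≤ n' → B n ≤ B n' := fun h => blk_mono a c h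
  set T := B (top t) with hTdef
  -- the matrix sum
  have hsum : (a + c) * (B t.1 ^ 2 + 11 * B t.1) +
      DD a c * (∑ i, (B (t.2.1 i) ^ 2 + 11 * B (t.2.1 i))) +
      DD a c * (∑ j, (B (t.2.2 j) ^ 2 + 11 * B (t.2.2 j))) ≤
      ∑ ij : Fin (a + 1) × Fin (c + 1), (a + c) * ((B (Mt t ij)) ^ 2 + 11 * B (Mt t ij)) := by
    exact matrix_sum (fun n => B n ^ 2 + 11 * B n) (fun n n' h => by
      have h3 := hBm h
      have h4 := Nat.pow_le_pow_left h3 2
      show B n ^ 2 + 11 * B n ≤ B n' ^ 2 + 11 * B n'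
      omega) t h1 h2
  -- T is at most the sum of the blocks
  have hTle : T ≤ (∑ i, B (t.2.1 i)) + (∑ j, B (t.2.2 j)) := by
    have : top t = Finset.univ.sup t.2.1 ∨ top t = Finset.univ.sup t.2.2 := by
      unfold top; exact max_choice _ _
    rcases this with h | h
    · have : ∃ i ∈ (Finset.univ : Finset (Fin a)), Finset.univ.sup t.2.1 = t.2.1 i := by
        apply Finset.exists_mem_eq_sup
        exact ⟨⟨0, ha⟩, Finset.mem_univ _⟩
      obtain ⟨i, _, hi⟩ := this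
      have h3 : T = B (t.2.1 i) := by rw [hTdef, h, hi]
      have h4 : B (t.2.1 i) ≤ ∑ i, B (t.2.1 i) :=
        Finset.single_le_sum (f := fun i => B (t.2.1 i)) (fun _ _ => Nat.zero_le _) (Finset.mem_univ i)
      omega
    · have : ∃ i ∈ (Finset.univ : Finset (Fin c)), Finset.univ.sup t.2.2 = t.2.2 i := by
        apply Finset.exists_mem_eq_sup
        exact ⟨⟨0, hc⟩, Finset.mem_univ _⟩
      obtain ⟨i, _, hi⟩ := this
      have h3 : T = B (t.2.2 i) := by rw [hTdef, h, hi]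
      have h4 : B (t.2.2 i) ≤ ∑ i, B (t.2.2 i) :=
        Finset.single_le_sum (f := fun i => B (t.2.2 i)) (fun _ _ => Nat.zero_le _) (Finset.mem_univ i)
      omega
  have hm : B t.1 ≤ T := by
    have h3 : t.1 ≤ top t := by
      have h4 : t.2.1 ⟨0, ha⟩ ≤ Finset.univ.sup t.2.1 := Finset.le_sup (Finset.mem_univ _)
      have h5 := h1 ⟨0, ha⟩
      unfold top
      omega
    exact hBm h3
  -- now arithmetic
  set SU2 := ∑ i, B (t.2.1 i) ^ 2 with hSU2
  set SV2 := ∑ j, B (t.2.2 j) ^ 2 with hSV2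
  set SU := ∑ i, B (t.2.1 i) with hSU
  set SV := ∑ j, B (t.2.2 j) with hSV
  have e1 : ∑ i, (DD a c * B (t.2.1 i) ^ 2 + B (t.2.1 i)) = DD a c * SU2 + SU := by
    rw [Finset.sum_add_distrib, ← Finset.mul_sum]
  have e2 : ∑ j, (DD a c * B (t.2.2 j) ^ 2 + B (t.2.2 j)) = DD a c * SV2 + SV := by
    rw [Finset.sum_add_distrib, ← Finset.mul_sum]
  have e3 : ∑ i, (B (t.2.1 i) ^ 2 + 11 * B (t.2.1 i)) = SU2 + 11 * SU := by
    rw [Finset.sum_add_distrib, ← Finset.mul_sum]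
  have e4 : ∑ j, (B (t.2.2 j) ^ 2 + 11 * B (t.2.2 j)) = SV2 + 11 * SV := by
    rw [Finset.sum_add_distrib, ← Finset.mul_sum]
  rw [e1, e2]
  rw [e3, e4] at hsum
  refine le_trans ?_ (Nat.add_le_add_left hsum _)
  -- remaining inequality
  have hac : 1 ≤ a * c := Nat.mul_pos ha hc
  have hET : EE a c ≤ a * c * T := by
    calc EE a c ≤ 1 * T := by omega
      _ ≤ a * c * T := Nat.mul_le_mul_right _ hac
  have hsub : T * (a * c * T - EE a c) + T * EE a c = T * (a * c * T) := by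
    rw [← mul_add, Nat.sub_add_cancel hET]
  have hE : EE a c + 2 ≤ 11 * DD a c := by
    unfold EE DD
    nlinarith
  have hS : T ≤ SU + SV := hTle
  have hT1 : 1 ≤ T := by omega
  have hDexp : DD a c = a * c + (a + c) := by unfold DD; ring
  have hm2 : a * c * (B t.1) ^ 2 ≤ T * (a * c * T) := by
    have := Nat.pow_le_pow_left hm 2
    calc a * c * (B t.1) ^ 2 ≤ a * c * T ^ 2 := Nat.mul_le_mul_left _ this
      _ = T * (a * c * T) := by ring
  have hm3 : B t.1 ≤ (a + c) * (11 * B t.1) := by nlinarith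
  have hDS : (EE a c + 2) * (SU + SV) ≤ DD a c * (11 * SU) + DD a c * (11 * SV) := by
    calc (EE a c + 2) * (SU + SV) ≤ (11 * DD a c) * (SU + SV) := Nat.mul_le_mul_right _ hE
      _ = _ := by ring
  have hES : T * EE a c + (SU + SV) + 1 ≤ (EE a c + 2) * (SU + SV) := by
    have : T * EE a c ≤ (SU + SV) * EE a c := Nat.mul_le_mul_right _ hS
    nlinarith
  have hD1 : DD a c * (B t.1) ^ 2 = a * c * (B t.1) ^ 2 + (a + c) * (B t.1) ^ 2 := by
    rw [hDexp]; ring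
  have hx1 : (a + c) * (B t.1 ^ 2 + 11 * B t.1) = (a + c) * (B t.1) ^ 2 + (a + c) * (11 * B t.1) := by ring
  have hx2 : DD a c * (SU2 + 11 * SU) = DD a c * SU2 + DD a c * (11 * SU) := by ring
  have hx3 : DD a c * (SV2 + 11 * SV) = DD a c * SV2 + DD a c * (11 * SV) := by ring
  rw [hD1, hx1, hx2, hx3]
  omega

end Pool.Agent.U358.CHG
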