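import Mathlib

set_option autoImplicit false

open MeasureTheory ProbabilityTheory
open scoped ENNReal

namespace Pool.Agent.U358.CHG

/-- Random selection of one position per cell: some selection realises a weighted count of
contained finite sets which is at most the product bound. -/
theorem exists_selection {ι : Type*} [Countable ι] (q : ι → ℕ) [∀ i, NeZero (q i)]
    (pt : (i : ι) → Fin (q i) → ℕ)
    (hinj : Function.Injective (fun s : (Σ i, Fin (q i)) => pt s.1 s.2))
    (p : ℕ → ℝ≥0∞) (hp : ∀ i x, ((q i : ℝ≥0∞))⁻¹ ≤ p (pt i x))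
    {T : Type*} [Countable T] (w : T → ℝ≥0∞) (P : T → Finset ℕ) :
    ∃ ω : (i : ι) → Fin (q i),
      ∑' t, (Set.indicator {t | ∀ n ∈ P t, ∃ i, pt i (ω i) = n} w t) ≤
        ∑' t, w t * ∏ n ∈ P t, p n := by
  classical
  let μ : (i : ι) → Measure (Fin (q i)) := fun i => uniformOn (Set.univ)
  have hμ : ∀ i x, μ i {x} = ((q i : ℝ≥0∞))⁻¹ := by
    intro i x
    simp only [μ]
    rw [uniformOn_univ]
    simp
  let ν : Measure ((i : ι) → Fin (q i)) := Measure.infinitePi μ
  let Ev : Finset ℕ → Set ((i : ι) → Fin (q i)) := fun Q => {ω | ∀ n ∈ Q, ∃ i, pt i (ω i) = n}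
  have hEvm : ∀ Q, MeasurableSet (Ev Q) := by
    intro Q
    have : Ev Q = ⋂ n ∈ Q, ⋃ i, {ω | pt i (ω i) = n} := by
      ext ω; simp [Ev]
    rw [this]
    refine Finset.measurableSet_biInter _ (fun n _ => MeasurableSet.iUnion (fun i => ?_))
    have : {ω : (i : ι) → Fin (q i) | pt i (ω i) = n} = (fun ω => ω i) ⁻¹' {x | pt i x = n} := rfl
    rw [this]
    exact (measurable_pi_apply i) (MeasurableSet.of_discrete)
  have hEv : ∀ Q, ν (Ev Q) ≤ ∏ n ∈ Q, p n := by
    intro Q
    rcases Set.eq_empty_or_nonempty (Ev Q) with h | ⟨ω0, h0⟩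
    · rw [h]; simp
    · have h0' : ∀ n ∈ Q, ∃ i, pt i (ω0 i) = n := h0
      rcases Q.eq_empty_or_nonempty with hQ | ⟨n0, hn0⟩
      · subst hQ
        simpa using prob_le_one
      obtain ⟨i0, hi0⟩ := h0' n0 hn0
      let idx : ℕ → ι := fun n => if h : ∃ i, pt i (ω0 i) = n then h.choose else i0
      have hidx : ∀ n ∈ Q, pt (idx n) (ω0 (idx n)) = n := by
        intro n hn
        have h := h0' n hn
        have h2 : idx n = h.choose := dif_pos h
        rw [h2]
        exact h.choose_spec
      have hsub : Ev Q ⊆ Set.pi (Q.image idx : Finset ι) (fun i => {ω0 i}) := by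
        intro ω hω
        have hω' : ∀ n ∈ Q, ∃ i, pt i (ω i) = n := hω
        intro i hi
        simp only [Finset.coe_image, Set.mem_image, Finset.mem_coe] at hi
        obtain ⟨n, hn, rfl⟩ := hi
        obtain ⟨i', hi'⟩ := hω' n hn
        have h1 := hidx n hn
        have h2 : (⟨i', ω i'⟩ : Σ i, Fin (q i)) = ⟨idx n, ω0 (idx n)⟩ := by
          apply hinj
          simp only
          rw [hi', h1]
        have h3 : i' = idx n := congrArg Sigma.fst h2
        subst h3
        simpa using h2
      calc ν (Ev Q) ≤ ν (Set.pi (Q.image idx : Finset ι) (fun i => {ω0 i})) := measure_mono hsub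
        _ = ∏ i ∈ Q.image idx, μ i {ω0 i} := by
            simp only [ν]
            exact Measure.infinitePi_pi μ (fun i _ => MeasurableSet.of_discrete)
        _ = ∏ n ∈ Q, μ (idx n) {ω0 (idx n)} := by
            apply Finset.prod_image
            intro n hn n' hn' hnn
            have h1 := hidx n hn
            have h2 := hidx n' hn'
            rw [← h1, ← h2, hnn]
        _ ≤ ∏ n ∈ Q, p n := by
            apply Finset.prod_le_prod'
            intro n hn
            rw [hμ]
            have := hp (idx n) (ω0 (idx n))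
            rwa [hidx n hn] at this
  let F : ((i : ι) → Fin (q i)) → ℝ≥0∞ := fun ω => ∑' t, (Ev (P t)).indicator (fun _ => w t) ω
  have hFm : AEMeasurable F ν := by
    apply AEMeasurable.tsum
    intro t
    exact (measurable_const.indicator (hEvm _)).aemeasurable
  have : IsProbabilityMeasure ν := by
    simp only [ν]; infer_instance
  obtain ⟨ω, hω⟩ := exists_le_lintegral hFm
  refine ⟨ω, ?_⟩
  have h1 : F ω = ∑' t, (Set.indicator {t | ∀ n ∈ P t, ∃ i, pt i (ω i) = n} w t) := by
    simp only [F]
    congr 1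
  rw [← h1]
  refine hω.trans ?_
  simp only [F]
  rw [lintegral_tsum (fun t => (measurable_const.indicator (hEvm _)).aemeasurable)]
  apply ENNReal.tsum_le_tsum
  intro t
  rw [lintegral_indicator (hEvm _), lintegral_const, Measure.restrict_apply MeasurableSet.univ,
    Set.univ_inter]
  exact mul_le_mul' le_rfl (hEv _)

end Pool.Agent.U358.CHG
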