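import Pool.Agent.U358.CHG.Prob
import Pool.Agent.U358.CHG.Count

set_option autoImplicit false

open scoped ENNReal

namespace Pool.Agent.U358.CHG

/-- the density function -/
noncomputable def yy (a c n : ℕ) : ℝ≥0∞ :=
  ∑' j : ℕ, if (4 * NN a c (j + (EE a c + 1)) ≤ n ∧ n < 5 * NN a c (j + (EE a c + 1))) then
    (8 : ℝ≥0∞)⁻¹ ^ (DD a c * (j + (EE a c + 1)) ^ 2 + (j + (EE a c + 1))) else 0

/-- selection probabilities -/
noncomputable def pp (a c n : ℕ) : ℝ≥0∞ :=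
  (8 : ℝ≥0∞)⁻¹ ^ ((a + c) * ((blk a c n) ^ 2 + 11 * blk a c n))

lemma yy_ge {a c b n : ℕ} (ha : 1 ≤ a) (hb : EE a c + 1 ≤ b)
    (h1 : 4 * NN a c b ≤ n) (h2 : n < 5 * NN a c b) :
    (8 : ℝ≥0∞)⁻¹ ^ (DD a c * (blk a c n) ^ 2 + blk a c n) ≤ yy a c n := by
  obtain ⟨j, rfl⟩ := Nat.exists_eq_add_of_le hb
  rw [blk_eq ha h1 h2]
  unfold yy
  refine le_trans ?_ (ENNReal.le_tsum j)
  rw [show EE a c + 1 + j = j + (EE a c + 1) by ring] at h1 h2 ⊢
  rw [if_pos ⟨h1, h2⟩]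

lemma tsum_yy (a c : ℕ) : ∑' n, yy a c n ≤ 1 := by
  unfold yy
  rw [ENNReal.tsum_comm]
  have h1 : ∀ j : ℕ, ∑' n : ℕ, (if (4 * NN a c (j + (EE a c + 1)) ≤ n ∧
      n < 5 * NN a c (j + (EE a c + 1))) then
      (8 : ℝ≥0∞)⁻¹ ^ (DD a c * (j + (EE a c + 1)) ^ 2 + (j + (EE a c + 1))) else 0) =
      (8 : ℝ≥0∞)⁻¹ ^ (j + (EE a c + 1)) := by
    intro j
    rw [tsum_eq_sum (s := Finset.Ico (4 * NN a c (j + (EE a c + 1)))
      (5 * NN a c (j + (EE a c + 1))))]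
    · rw [Finset.sum_congr rfl (g := fun _ =>
        (8 : ℝ≥0∞)⁻¹ ^ (DD a c * (j + (EE a c + 1)) ^ 2 + (j + (EE a c + 1))))]
      · rw [Finset.sum_const, Nat.card_Ico]
        have : 5 * NN a c (j + (EE a c + 1)) - 4 * NN a c (j + (EE a c + 1)) =
          NN a c (j + (EE a c + 1)) := by omega
        rw [this, nsmul_eq_mul, pow_add]
        unfold NN
        rw [← mul_assoc]
        push_cast
        rw [← mul_pow, ENNReal.mul_inv_cancel (by norm_num) (by norm_num), one_pow, one_mul]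
      · intro n hn
        rw [Finset.mem_Ico] at hn
        rw [if_pos hn]
    · intro n hn
      rw [Finset.mem_Ico] at hn
      rw [if_neg hn]
  simp_rw [h1]
  have h2 : ∀ j : ℕ, (8 : ℝ≥0∞)⁻¹ ^ (j + (EE a c + 1)) ≤ (2 : ℝ≥0∞)⁻¹ ^ (j + 1) := by
    intro j
    calc (8 : ℝ≥0∞)⁻¹ ^ (j + (EE a c + 1)) ≤ (2 : ℝ≥0∞)⁻¹ ^ (j + (EE a c + 1)) := by
          apply pow_le_pow_left'
          rw [ENNReal.inv_le_inv]
          norm_num
      _ ≤ (2 : ℝ≥0∞)⁻¹ ^ (j + 1) := by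
          apply pow_le_pow_right_of_le_one'
          · rw [ENNReal.inv_le_one]; norm_num
          · omega
  refine (ENNReal.tsum_le_tsum h2).trans ?_
  rw [ENNReal.tsum_geometric_add_one, ENNReal.one_sub_inv_two, inv_inv]
  rw [ENNReal.inv_mul_cancel (by norm_num) (by norm_num)]

lemma weight_le {a c : ℕ} (ha : 1 ≤ a) (hc : 1 ≤ c) (t : Cfg a c)
    (h1 : ∀ i, t.1 < t.2.1 i) (h2 : ∀ j, t.1 < t.2.2 j) (hinj : Function.Injective (Mt t))
    (hB : ∀ ij, ∃ b, EE a c + 1 ≤ b ∧ 4 * NN a c b ≤ Mt t ij ∧ Mt t ij < 5 * NN a c b) :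
    2 * (8 : ℝ≥0∞)⁻¹ ^ (blk a c (top t) * (a * c * blk a c (top t) - EE a c)) *
      ∏ n ∈ Finset.univ.image (Mt t), pp a c n ≤
    yy a c t.1 * (∏ i, yy a c (t.2.1 i)) * (∏ j, yy a c (t.2.2 j)) := by
  have e00 : Mt t (0, 0) = t.1 := by simp [Mt]
  have e0s : ∀ j : Fin c, Mt t (0, j.succ) = t.2.2 j := by intro j; simp [Mt]
  have es0 : ∀ i : Fin a, Mt t (i.succ, 0) = t.2.1 i := by intro i; simp [Mt]
  have hm : (8 : ℝ≥0∞)⁻¹ ^ (DD a c * (blk a c t.1) ^ 2 + blk a c t.1) ≤ yy a c t.1 := by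
    obtain ⟨b, hb, hb1, hb2⟩ := hB (0, 0)
    rw [e00] at hb1 hb2
    exact yy_ge ha hb hb1 hb2
  have hU : ∀ i, (8 : ℝ≥0∞)⁻¹ ^ (DD a c * (blk a c (t.2.1 i)) ^ 2 + blk a c (t.2.1 i)) ≤
      yy a c (t.2.1 i) := by
    intro i
    obtain ⟨b, hb, hb1, hb2⟩ := hB (i.succ, 0)
    rw [es0] at hb1 hb2
    exact yy_ge ha hb hb1 hb2
  have hV : ∀ j, (8 : ℝ≥0∞)⁻¹ ^ (DD a c * (blk a c (t.2.2 j)) ^ 2 + blk a c (t.2.2 j)) ≤
      yy a c (t.2.2 j) := by
    intro j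
    obtain ⟨b, hb, hb1, hb2⟩ := hB (0, j.succ)
    rw [e0s] at hb1 hb2
    exact yy_ge ha hb hb1 hb2
  have hT : EE a c < blk a c (top t) := by
    obtain ⟨b, hb, hb1, hb2⟩ := hB (0, 0)
    rw [e00] at hb1 hb2
    have h3 := blk_eq ha hb1 hb2
    have h4 : t.1 ≤ top t := by
      have h4 : t.2.1 ⟨0, ha⟩ ≤ Finset.univ.sup t.2.1 := Finset.le_sup (Finset.mem_univ _)
      have h5 := h1 ⟨0, ha⟩
      unfold top
      omega
    have h5 := blk_mono a c h4
    omega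
  have hexp := exponent_bound ha hc t h1 h2 hT
  rw [Finset.prod_image (fun x _ y _ h => hinj h)]
  unfold pp
  rw [Finset.prod_pow_eq_pow_sum, mul_assoc, ← pow_add]
  calc 2 * (8 : ℝ≥0∞)⁻¹ ^ _ ≤ 2 * (8 : ℝ≥0∞)⁻¹ ^ _ := by
        gcongr 2 * ?_
        exact pow_le_pow_right_of_le_one' (ENNReal.inv_le_one.mpr (by norm_num)) hexp
    _ ≤ (8 : ℝ≥0∞)⁻¹ ^ ((DD a c * (blk a c t.1) ^ 2 + blk a c t.1) +
      (∑ i, (DD a c * (blk a c (t.2.1 i)) ^ 2 + blk a c (t.2.1 i))) +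
      (∑ j, (DD a c * (blk a c (t.2.2 j)) ^ 2 + blk a c (t.2.2 j)))) := by
        rw [pow_succ' _ (_ + _ + _), ← mul_assoc]
        have : (2 : ℝ≥0∞) * 8⁻¹ ≤ 1 := by
          calc (2 : ℝ≥0∞) * 8⁻¹ ≤ 8 * 8⁻¹ := by gcongr; norm_num
            _ = 1 := ENNReal.mul_inv_cancel (by norm_num) (by norm_num)
        calc _ ≤ 1 * _ := mul_le_mul' this le_rfl
          _ = _ := one_mul _
    _ = (8 : ℝ≥0∞)⁻¹ ^ (DD a c * (blk a c t.1) ^ 2 + blk a c t.1) *
        (∏ i, (8 : ℝ≥0∞)⁻¹ ^ (DD a c * (blk a c (t.2.1 i)) ^ 2 + blk a c (t.2.1 i))) *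
        (∏ j, (8 : ℝ≥0∞)⁻¹ ^ (DD a c * (blk a c (t.2.2 j)) ^ 2 + blk a c (t.2.2 j))) := by
        rw [Finset.prod_pow_eq_pow_sum, Finset.prod_pow_eq_pow_sum, pow_add, pow_add]
    _ ≤ _ := by
        apply mul_le_mul' (mul_le_mul' hm _) _
        · exact Finset.prod_le_prod' (fun i _ => hU i)
        · exact Finset.prod_le_prod' (fun j _ => hV j)

open Classical in
theorem exists_nat_set (a c : ℕ) (ha : 1 ≤ a) (hc : 1 ≤ c) :
    ∃ A : Set ℕ, ThreeAPFree A ∧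
      (∀ t : Cfg a c, (∀ i, t.1 < t.2.1 i) → (∀ j, t.1 < t.2.2 j) → Function.Injective (Mt t) →
        ¬ ∀ ij, Mt t ij ∈ A) ∧
      (∀ n ∈ A, 1 ≤ n) ∧
      ∀ b, EE a c + 1 ≤ b → ∃ S : Finset ℕ, (S : Set ℕ) ⊆ A ∧ (∀ n ∈ S, n < 5 * NN a c b) ∧
        mm a c b ≤ 2 * S.card := by
  obtain ⟨f, hf⟩ := exists_base a c ha hc
  set b0 := EE a c + 1 with hb0
  let ι : Type := Σ j : ℕ, Fin (mm a c (j + b0))
  let q : ι → ℕ := fun i => qq a c (i.1 + b0)
  have hq : ∀ i, NeZero (q i) := fun i => ⟨by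
    show 8 ^ _ ≠ 0
    positivity⟩
  let pt : (i : ι) → Fin (q i) → ℕ := fun i x => f (i.1 + b0) (i.2, x)
  have hblk : ∀ j x, blk a c (f (j + b0) x) = j + b0 := by
    intro j x
    obtain ⟨h1, h2⟩ := (hf (j + b0) (by omega)).2.1 x
    exact blk_eq ha h1 h2
  have hinj : Function.Injective (fun s : (Σ i, Fin (q i)) => pt s.1 s.2) := by
    rintro ⟨⟨j, k⟩, x⟩ ⟨⟨j', k'⟩, x'⟩ h
    have h1 : f (j + b0) (k, x) = f (j' + b0) (k', x') := h
    have h2 : j + b0 = j' + b0 := by rw [← hblk j (k, x), ← hblk j' (k', x'), h1]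
    have h3 : j = j' := by omega
    subst h3
    have h4 := (hf (j + b0) (by omega)).1 h1
    rw [Prod.mk.injEq] at h4
    obtain ⟨h5, h6⟩ := h4
    subst h5
    subst h6
    rfl
  have hp : ∀ i x, ((q i : ℝ≥0∞))⁻¹ ≤ pp a c (pt i x) := by
    intro i x
    simp only [pp, pt]
    rw [hblk]
    simp only [q, qq]
    push_cast
    rw [← ENNReal.inv_pow]
  let good : Cfg a c → Prop := fun t => (∀ i, t.1 < t.2.1 i) ∧ (∀ j, t.1 < t.2.2 j) ∧
    Function.Injective (Mt t) ∧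
    ∀ ij, ∃ b, EE a c + 1 ≤ b ∧ 4 * NN a c b ≤ Mt t ij ∧ Mt t ij < 5 * NN a c b
  let w : Cfg a c → ℝ≥0∞ := fun t => if good t then
    2 * (8 : ℝ≥0∞)⁻¹ ^ (blk a c (top t) * (a * c * blk a c (top t) - EE a c)) else 0
  let P : Cfg a c → Finset ℕ := fun t => Finset.univ.image (Mt t)
  obtain ⟨ω, hω⟩ := exists_selection q pt hinj (pp a c) hp w P
  have hω1 : ∑' t, (Set.indicator {t | ∀ n ∈ P t, ∃ i, pt i (ω i) = n} w t) ≤ 1 := by
    refine hω.trans ?_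
    calc ∑' t, w t * ∏ n ∈ P t, pp a c n ≤
        ∑' t : Cfg a c, yy a c t.1 * (∏ i, yy a c (t.2.1 i)) * (∏ j, yy a c (t.2.2 j)) := by
          apply ENNReal.tsum_le_tsum
          intro t
          by_cases hg : good t
          · simp only [w, if_pos hg]
            exact weight_le ha hc t hg.1 hg.2.1 hg.2.2.1 hg.2.2.2
          · simp only [w, if_neg hg, zero_mul]
            exact zero_le
      _ = (∑' n, yy a c n) * (∑' n, yy a c n) ^ a * (∑' n, yy a c n) ^ c := tsum_cfg _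
      _ ≤ 1 * 1 ^ a * 1 ^ c := by
          gcongr <;> exact tsum_yy a c
      _ = 1 := by simp
  -- the selected set and the deleted set
  let R : Set ℕ := {n | ∃ i, pt i (ω i) = n}
  have hRblock : ∀ n ∈ R, ∃ b, EE a c + 1 ≤ b ∧ 4 * NN a c b ≤ n ∧ n < 5 * NN a c b := by
    rintro _ ⟨i, rfl⟩
    exact ⟨i.1 + b0, by omega, (hf (i.1 + b0) (by omega)).2.1 _⟩
  let bad : Cfg a c → Prop := fun t => good t ∧ ∀ ij, Mt t ij ∈ R
  let Z : Set ℕ := {n | ∃ t, bad t ∧ top t = n}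
  refine ⟨R \ Z, ?_, ?_, ?_, ?_⟩
  · have h1 := base_free ha hc f hf
    apply h1.mono
    rintro _ ⟨⟨i, rfl⟩, _⟩
    exact ⟨i.1 + b0, by omega, _, rfl⟩
  · intro t h1 h2 h3 h4
    have hgood : good t := ⟨h1, h2, h3, fun ij => hRblock _ (h4 ij).1⟩
    have hbad : bad t := ⟨hgood, fun ij => (h4 ij).1⟩
    have htop : top t ∈ Z := ⟨t, hbad, rfl⟩
    have e0s : ∀ j : Fin c, Mt t (0, j.succ) = t.2.2 j := by intro j; simp [Mt]
    have es0 : ∀ i : Fin a, Mt t (i.succ, 0) = t.2.1 i := by intro i; simp [Mt]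
    have : top t = Finset.univ.sup t.2.1 ∨ top t = Finset.univ.sup t.2.2 := by
      unfold top; exact max_choice _ _
    rcases this with h | h
    · have : ∃ i ∈ (Finset.univ : Finset (Fin a)), Finset.univ.sup t.2.1 = t.2.1 i := by
        apply Finset.exists_mem_eq_sup
        exact ⟨⟨0, ha⟩, Finset.mem_univ _⟩
      obtain ⟨i, _, hi⟩ := this
      have h5 := (h4 (i.succ, 0)).2
      rw [es0, ← hi, ← h] at h5
      exact h5 htop
    · have : ∃ i ∈ (Finset.univ : Finset (Fin c)), Finset.univ.sup t.2.2 = t.2.2 i := by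
        apply Finset.exists_mem_eq_sup
        exact ⟨⟨0, hc⟩, Finset.mem_univ _⟩
      obtain ⟨i, _, hi⟩ := this
      have h5 := (h4 (0, i.succ)).2
      rw [e0s, ← hi, ← h] at h5
      exact h5 htop
  · rintro n ⟨hn, _⟩
    obtain ⟨b, _, hb, _⟩ := hRblock n hn
    have : 0 < NN a c b := by unfold NN; positivity
    omega
  · intro b hb
    obtain ⟨j, rfl⟩ := Nat.exists_eq_add_of_le hb
    rw [show EE a c + 1 + j = j + b0 by omega]
    let Rb : Finset ℕ := Finset.univ.image (fun k : Fin (mm a c (j + b0)) => pt ⟨j, k⟩ (ω ⟨j, k⟩))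
    have hRbcard : Rb.card = mm a c (j + b0) := by
      rw [Finset.card_image_of_injective, Finset.card_univ, Fintype.card_fin]
      intro k k' hkk
      have h2 : (⟨⟨j, k⟩, ω ⟨j, k⟩⟩ : Σ i, Fin (q i)) = ⟨⟨j, k'⟩, ω ⟨j, k'⟩⟩ := hinj hkk
      have h3 : (⟨j, k⟩ : ι) = ⟨j, k'⟩ := congrArg Sigma.fst h2
      simpa using h3
    have hRbR : ∀ n ∈ Rb, n ∈ R := by
      intro n hn
      simp only [Rb, Finset.mem_image, Finset.mem_univ, true_and] at hn
      obtain ⟨k, hk⟩ := hn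
      exact ⟨_, hk⟩
    have hRbblk : ∀ n ∈ Rb, blk a c n = j + b0 := by
      intro n hn
      simp only [Rb, Finset.mem_image, Finset.mem_univ, true_and] at hn
      obtain ⟨k, rfl⟩ := hn
      exact hblk j _
    have hRblt : ∀ n ∈ Rb, n < 5 * NN a c (j + b0) := by
      intro n hn
      simp only [Rb, Finset.mem_image, Finset.mem_univ, true_and] at hn
      obtain ⟨k, rfl⟩ := hn
      exact ((hf (j + b0) (by omega)).2.1 _).2
    let F : Finset ℕ := Rb.filter (fun n => n ∈ Z)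
    have hF : 2 * F.card ≤ mm a c (j + b0) := by
      -- choose a configuration for each element
      have hch : ∀ n : ℕ, ∃ t : Cfg a c, n ∈ F → bad t ∧ top t = n := by
        intro n
        by_cases hn : n ∈ F
        · obtain ⟨t, ht⟩ := (Finset.mem_filter.mp hn).2
          exact ⟨t, fun _ => ht⟩
        · exact ⟨(0, fun _ => 0, fun _ => 0), fun h => absurd h hn⟩
      choose τ hτ using hch
      have hτinj : Set.InjOn τ (F : Set ℕ) := by
        intro n hn n' hn' h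
        rw [← (hτ n hn).2, ← (hτ n' hn').2, h]
      have hval : ∀ n ∈ F, Set.indicator {t | ∀ n ∈ P t, ∃ i, pt i (ω i) = n} w (τ n) =
          2 * (8 : ℝ≥0∞)⁻¹ ^ ((j + b0) * (a * c * (j + b0) - EE a c)) := by
        intro n hn
        obtain ⟨⟨hgood, hR⟩, htop⟩ := hτ n hn
        rw [Set.indicator_of_mem]
        · simp only [w, if_pos hgood]
          rw [htop, hRbblk n (Finset.mem_filter.mp hn).1]
        · intro n' hn'
          simp only [P, Finset.mem_image, Finset.mem_univ, true_and] at hn'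
          obtain ⟨ij, hij⟩ := hn'
          rw [← hij]
          exact hR ij
      have hsum : (F.card : ℝ≥0∞) * (2 * (8 : ℝ≥0∞)⁻¹ ^ ((j + b0) * (a * c * (j + b0) - EE a c))) ≤ 1 := by
        calc (F.card : ℝ≥0∞) * (2 * (8 : ℝ≥0∞)⁻¹ ^ ((j + b0) * (a * c * (j + b0) - EE a c)))
            = ∑ n ∈ F, Set.indicator {t | ∀ n ∈ P t, ∃ i, pt i (ω i) = n} w (τ n) := by
              rw [Finset.sum_congr rfl hval, Finset.sum_const, nsmul_eq_mul]
          _ = ∑ t ∈ F.image τ, Set.indicator {t | ∀ n ∈ P t, ∃ i, pt i (ω i) = n} w t := by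
              rw [Finset.sum_image hτinj]
          _ ≤ ∑' t, Set.indicator {t | ∀ n ∈ P t, ∃ i, pt i (ω i) = n} w t :=
              ENNReal.sum_le_tsum _
          _ ≤ 1 := hω1
      have hmul : (F.card : ℝ≥0∞) * 2 ≤ 8 ^ ((j + b0) * (a * c * (j + b0) - EE a c)) := by
        rw [← mul_assoc, ← ENNReal.inv_pow, ← div_eq_mul_inv] at hsum
        rw [ENNReal.div_le_iff (by positivity) (by finiteness)] at hsum
        rwa [one_mul] at hsum
      have : ((F.card * 2 : ℕ) : ℝ≥0∞) ≤ ((mm a c (j + b0) : ℕ) : ℝ≥0∞) := by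
        unfold mm
        push_cast
        exact hmul
      have := Nat.cast_le.mp this
      omega
    refine ⟨Rb.filter (fun n => n ∉ Z), ?_, ?_, ?_⟩
    · intro n hn
      rw [Finset.mem_coe, Finset.mem_filter] at hn
      exact ⟨hRbR n hn.1, hn.2⟩
    · intro n hn
      exact hRblt n (Finset.mem_filter.mp hn).1
    · have h1 := Finset.card_filter_add_card_filter_not (s := Rb) (fun n => n ∈ Z)
      rw [hRbcard] at h1
      have h2 : F.card = (Rb.filter (fun n => n ∈ Z)).card := rfl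
      omega

end Pool.Agent.U358.CHG
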